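import Mathlib

namespace Pool.Agent.H.MP_771d0b_an

open Set Topology

/-- The random substitution on letters; `false` is the letter a and `true` is the letter b. -/
def th : Bool → Set (List Bool)
  | false => {[false, true, false, false], [false, false, true, false]}
  | true => {[false, true, false, true], [true, false, true, false]}

/-- The image of a word: each letter is replaced independently. -/
def sub (u : List Bool) : Set (List Bool) :=
  {v | ∃ vs : List (List Bool), List.Forall₂ (fun l w => w ∈ th l) u vs ∧ v = vs.flatten}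

/-- The `k`-th image of the letter a. -/
def Th : ℕ → Set (List Bool)
  | 0 => {[false]}
  | k + 1 => ⋃ u ∈ Th k, sub u

/-- Legal words. -/
def Legal (w : List Bool) : Prop := ∃ k, ∃ u ∈ Th k, w <:+: u

/-- The subshift. -/
def X : Set (ℤ → Bool) := {x | ∀ (i : ℤ) (n : ℕ), Legal (List.ofFn fun t : Fin n => x (i + (t : ℕ)))}

/-- The shift by `s`. -/
def T (s : ℤ) (x : X) : X := ⟨fun n => x.1 (n + s), fun i n => by
  simpa only [add_right_comm i _ s] using x.2 (i + s) n⟩

lemma ev (n : ℤ) : Continuous fun x : X => x.1 n := (continuous_apply n).comp continuous_subtype_val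

lemma T_cont (s : ℤ) : Continuous (T s) :=
  continuous_induced_rng.2 (show Continuous fun (x : X) n => x.1 (n + s) from continuous_pi fun n => ev (n + s))

/-- The left shift as a homeomorphism of the subshift. -/
def shift : X ≃ₜ X where
  toFun := T 1
  invFun := T (-1)
  left_inv x := by simp [T]
  right_inv x := by simp [T]
  continuous_toFun := T_cont 1
  continuous_invFun := T_cont (-1)

def blk (l ch : Bool) (r : ℤ) : Bool :=
  if ch then (if r = 0 then l else decide (r = 2)) else (if r = 3 then l else decide (r = 1))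

def S : List Bool → (ℕ → Bool) → List Bool
  | [], _ => []
  | l :: u, c => [blk l (c 0) 0, blk l (c 0) 1, blk l (c 0) 2, blk l (c 0) 3] ++ S u fun n => c (n + 1)

lemma mem_th {l : Bool} {w : List Bool} :
    w ∈ th l ↔ ∃ ch, w = [blk l ch 0, blk l ch 1, blk l ch 2, blk l ch 3] := by
  cases l <;> simp [th, blk]

lemma mem_sub {u v : List Bool} : v ∈ sub u ↔ ∃ c, v = S u c := by
  induction u generalizing v with
  | nil => simp [sub, S]
  | cons l u ih =>
    constructor
    · rintro ⟨vs, h, rfl⟩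
      obtain ⟨w, vs, h1, h2, rfl⟩ := List.forall₂_cons_left_iff.1 h
      obtain ⟨ch, rfl⟩ := mem_th.1 h1
      obtain ⟨c, hc⟩ := ih.1 ⟨vs, h2, rfl⟩
      exact ⟨fun n => Nat.casesOn n ch c, by simp [S, hc]⟩
    · rintro ⟨c, rfl⟩
      obtain ⟨vs, h, e⟩ := ih.2 ⟨fun n => c (n + 1), rfl⟩
      exact ⟨_ :: vs, .cons (mem_th.2 ⟨c 0, rfl⟩) h, by simp [S, e]⟩

lemma S_len (u : List Bool) (c : ℕ → Bool) : (S u c).length = 4 * u.length := by
  induction u generalizing c with
  | nil => rfl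
  | cons l u ih => simp [S, ih]; omega

lemma S_get (u : List Bool) (c : ℕ → Bool) (t : ℕ) (h : t < 4 * u.length) :
    (S u c).getD t false = blk (u.getD (t / 4) false) (c (t / 4)) ((t : ℤ) % 4) := by
  induction u generalizing c t with
  | nil => simp at h
  | cons l u ih =>
    rcases t with _ | _ | _ | _ | t
    · simp [S]
    · simp [S]
    · simp [S]
    · simp [S]
    · have e1 : (t + 1 + 1 + 1 + 1) / 4 = t / 4 + 1 := by omega
      have e2 : ((t + 1 + 1 + 1 + 1 : ℕ) : ℤ) % 4 = t % 4 := by omega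
      rw [e1, e2]
      simpa [S] using ih (fun n => c (n + 1)) t (by simp at h; omega)

def Lg (x : ℤ → Bool) (i : ℤ) (n : ℕ) : Prop := Legal (List.ofFn fun t : Fin n => x (i + (t : ℕ)))

lemma lg_iff {x : ℤ → Bool} {i : ℤ} {n : ℕ} : Lg x i n ↔ ∃ k, ∃ u ∈ Th k, ∃ s : ℕ, s + n ≤ u.length ∧
    ∀ t < n, x (i + (t : ℕ)) = u.getD (s + t) false := by
  refine exists_congr fun k => exists_congr fun u => and_congr_right fun _ => ⟨?_, ?_⟩
  · rintro ⟨p, q, rfl⟩
    refine ⟨p.length, by simp, fun t ht => ?_⟩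
    simp [List.getElem?_append_right, List.getElem?_append_left, ht]
  · rintro ⟨s, h1, h2⟩
    have : (List.ofFn fun t : Fin n => x (i + (t : ℕ))) = (u.drop s).take n := by
      refine List.ext_getElem (by simp; omega) fun t h3 h4 => ?_
      have h5 : t < n := by simpa using h3
      simp [h2 t h5, List.getElem?_eq_getElem (show s + t < u.length by omega)]
    rw [this]
    exact ⟨u.take s, (u.drop s).drop n, by rw [List.append_assoc, List.take_append_drop, List.take_append_drop]⟩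

lemma Lg.mono {x x' : ℤ → Bool} {i i' : ℤ} {n n' : ℕ} (h : Lg x i n) (d : ℕ) (h1 : d + n' ≤ n)
    (h2 : ∀ t < n', x' (i' + (t : ℕ)) = x (i + (d + t : ℕ))) : Lg x' i' n' := by
  obtain ⟨k, u, hu, s, h3, h4⟩ := lg_iff.1 h
  exact lg_iff.2 ⟨k, u, hu, s + d, by omega, fun t ht => by rw [h2 t ht, h4 _ (by omega), add_assoc]⟩

lemma lg_closed (i : ℤ) (n : ℕ) : IsClosed {x | Lg x i n} :=
  (isClosed_discrete {f : Fin n → Bool | Legal (List.ofFn f)}).preimage
    (f := fun (x : ℤ → Bool) (t : Fin n) => x (i + (t : ℕ))) (by fun_prop)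

lemma memX {x : ℤ → Bool} (h : ∀ N : ℕ, Lg x (-N) (2 * N)) : x ∈ X := fun i n =>
  (h (i.natAbs + n)).mono (i + i.natAbs + n).toNat (by omega) fun t _ => congrArg x (by omega)

instance : CompactSpace X := by
  refine isCompact_iff_compactSpace.1 (IsClosed.isCompact ?_)
  have : X = ⋂ i, ⋂ n, {x | Lg x i n} := by
    ext x
    simp only [mem_iInter]
    rfl
  rw [this]
  exact isClosed_iInter fun i => isClosed_iInter fun n => lg_closed i n

def pi (y c : ℤ → Bool) (k n : ℤ) : Bool := blk (y ((n + k) / 4)) (c ((n + k) / 4)) ((n + k) % 4)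

lemma piv (y c : ℤ → Bool) {k n : ℤ} (q r : ℤ) (h : n + k = 4 * q + r) (h0 : 0 ≤ r) (h1 : r < 4) :
    pi y c k n = blk (y q) (c q) r := by
  rw [pi, show (n + k) / 4 = q by omega, show (n + k) % 4 = r by omega]

lemma up {y : ℤ → Bool} (hy : y ∈ X) (c : ℤ → Bool) (k : ℤ) : pi y c k ∈ X := fun i n => by
  obtain ⟨j, u, hu, s, h1, h2⟩ := lg_iff.1 (hy ((i + k) / 4) (n + 1))
  refine lg_iff.2 ⟨j + 1, S u fun m => c ((i + k) / 4 + m - s), ?_, 4 * s + ((i + k) % 4).toNat, ?_, ?_⟩
  · exact mem_biUnion hu (mem_sub.2 ⟨_, rfl⟩)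
  · rw [S_len]
    omega
  · intro t ht
    obtain ⟨d, hd⟩ : ∃ d : ℕ, d = (((i + k) % 4).toNat + t) / 4 := ⟨_, rfl⟩
    rw [S_get _ _ _ (by omega), show (4 * s + ((i + k) % 4).toNat + t) / 4 = s + d by omega,
      ← h2 d (by omega), piv y c ((i + k) / 4 + d) ((i + t + k) % 4) (by omega) (by omega) (by omega)]
    congr 1
    · exact congrArg c (by omega)
    · omega

lemma down {x : ℤ → Bool} {i : ℤ} {n : ℕ} (h : Lg x i n) (hn : 2 ≤ n) : ∃ (y c : ℤ → Bool) (k : Fin 4),
    (∀ t < n, x (i + (t : ℕ)) = pi y c (k : ℕ) (i + (t : ℕ))) ∧ Lg y ((i + (k : ℕ)) / 4) (n / 4) := by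
  obtain ⟨j, u, hu, s, h1, h2⟩ := lg_iff.1 h
  rcases j with _ | j
  · obtain rfl : u = [false] := hu
    simp at h1
    omega
  obtain ⟨w, hw, hu⟩ := mem_iUnion₂.1 hu
  obtain ⟨c, rfl⟩ := mem_sub.1 hu
  rw [S_len] at h1
  obtain ⟨k, e, hk, he⟩ : ∃ (k : ℕ) (e : ℤ), k < 4 ∧ s - i = k + 4 * e :=
    ⟨((s - i) % 4).toNat, (s - i) / 4, by omega, by omega⟩
  refine ⟨fun m => w.getD (m + e).toNat false, fun m => c (m + e).toNat, ⟨k, hk⟩, fun t ht => ?_,
    lg_iff.2 ⟨j, w, hw, s / 4, by omega, fun t ht => ?_⟩⟩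
  · rw [h2 t ht, S_get _ _ _ (by omega), piv _ _ (((s + t) / 4 : ℕ) - e) ((s + t : ℕ) % 4)
      (by simp only; omega) (by omega) (by omega)]
    simp only [sub_add_cancel, Int.toNat_natCast]
  · simp only
    congr 1
    omega

lemma cdep {Z D E : Type} [TopologicalSpace Z] [TopologicalSpace D] [DiscreteTopology D]
    [TopologicalSpace E] {φ : Z → D} (hφ : Continuous φ) {g : D → Z → E} (hg : ∀ d, Continuous (g d)) :
    Continuous fun z => g (φ z) z :=
  (continuous_prod_of_discrete_left (f := fun p : D × Z => g p.1 p.2).2 hg).comp (hφ.prodMk continuous_id)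

lemma pi_cont : Continuous fun z : (ℤ → Bool) × (ℤ → Bool) × Fin 4 => pi z.1 z.2.1 (z.2.2 : ℕ) := by
  refine continuous_pi fun n => cdep (φ := fun z : (ℤ → Bool) × (ℤ → Bool) × Fin 4 => z.2.2) (by fun_prop)
    (g := fun k z => pi z.1 z.2.1 (k : ℕ) n) fun k => ?_
  exact (continuous_of_discreteTopology (f := fun p : Bool × Bool => blk p.1 p.2 ((n + (k : ℕ)) % 4))).comp
    (f := fun z : (ℤ → Bool) × (ℤ → Bool) × Fin 4 => (z.1 ((n + (k : ℕ)) / 4), z.2.1 ((n + (k : ℕ)) / 4)))
    (by fun_prop)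

lemma surj {x : ℤ → Bool} (hx : x ∈ X) : ∃ y ∈ X, ∃ (c : ℤ → Bool) (k : Fin 4), x = pi y c (k : ℕ) := by
  let C : ℕ → Set ((ℤ → Bool) × (ℤ → Bool) × Fin 4) := fun N =>
    (⋂ n ∈ Icc (-N : ℤ) N, {z | x n = pi z.1 z.2.1 (z.2.2 : ℕ) n}) ∩ {z | Lg z.1 (-N) (2 * N)}
  have cl : ∀ N, IsClosed (C N) := fun N => (isClosed_biInter fun n _ => isClosed_eq continuous_const
    ((continuous_apply n).comp pi_cont)).inter ((lg_closed _ _).preimage continuous_fst)
  obtain ⟨z, hz⟩ := IsCompact.nonempty_iInter_of_sequence_nonempty_isCompact_isClosed C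
    (fun N z hz => ⟨mem_iInter₂.2 fun n hn => mem_iInter₂.1 hz.1 n (by simp at hn ⊢; omega),
      Lg.mono hz.2 1 (by omega) fun t _ => congrArg _ (by omega)⟩)
    (fun N => by
      obtain ⟨y, c, k, h1, h2⟩ := down (hx (-4 * N - 4) (8 * N + 8)) (by omega)
      refine ⟨(y, c, k), mem_iInter₂.2 fun n hn => ?_, h2.mono 1 (by omega) fun t _ => congrArg _ (by omega)⟩
      have := h1 (n + 4 * N + 4).toNat (by simp at hn; omega)
      rwa [show -4 * (N : ℤ) - 4 + ((n + 4 * N + 4).toNat : ℕ) = n by simp at hn; omega] at this)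
    (cl 0).isCompact cl
  simp only [mem_iInter] at hz
  exact ⟨z.1, memX fun N => (hz N).2, z.2.1, z.2.2, funext fun n =>
    mem_iInter₂.1 (hz n.natAbs).1 n (by simp only [mem_Icc]; omega)⟩

lemma Xne : X.Nonempty := by
  have h : ∀ k, ∃ u ∈ Th k, k < u.length := fun k => by
    induction k with
    | zero => exact ⟨_, rfl, by simp⟩
    | succ k ih =>
      obtain ⟨u, h1, h2⟩ := ih
      exact ⟨S u fun _ => true, mem_biUnion h1 (mem_sub.2 ⟨_, rfl⟩), by rw [S_len]; omega⟩
  obtain ⟨z, hz⟩ := IsCompact.nonempty_iInter_of_sequence_nonempty_isCompact_isClosed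
    (fun N : ℕ => {x | Lg x (-N) (2 * N)})
    (fun N z hz => Lg.mono hz 1 (by omega) fun t _ => congrArg _ (by omega))
    (fun N => by
      obtain ⟨u, h1, h2⟩ := h (2 * N)
      refine ⟨fun n => u.getD (n + N).toNat false, mem_setOf.2 ?_⟩
      exact lg_iff.2 ⟨_, u, h1, 0, by omega, fun t _ => by simp⟩)
    (lg_closed _ _).isCompact fun N => lg_closed _ _
  exact ⟨z, memX (mem_iInter.1 hz)⟩

lemma nobbb {y : ℤ → Bool} (hy : y ∈ X) (q : ℤ) : y q = false ∨ y (q + 1) = false ∨ y (q + 2) = false := by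
  obtain ⟨w, -, c, k, rfl⟩ := surj hy
  have key : ∀ l ch, (blk l ch 0 = false ∨ blk l ch 1 = false) ∧ (blk l ch 1 = false ∨ blk l ch 2 = false) ∧
    (blk l ch 2 = false ∨ blk l ch 3 = false) := by decide
  obtain ⟨m, r, h⟩ : ∃ (m : ℤ) (r : ℤ), q + (k : ℕ) = 4 * m + r ∧ (r = 0 ∨ r = 1 ∨ r = 2 ∨ r = -1) :=
    ⟨(q + (k : ℕ) + 1) / 4, (q + (k : ℕ) + 1) % 4 - 1, by omega⟩
  have := key (w m) (c m)
  obtain ⟨h, rfl | rfl | rfl | rfl⟩ := h
  · rw [piv w c m 0 h (by omega) (by omega), piv w c m 1 (by omega) (by omega) (by omega)]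
    tauto
  · rw [piv w c m 1 h (by omega) (by omega), piv w c m 2 (by omega) (by omega) (by omega)]
    tauto
  · rw [piv w c m 2 h (by omega) (by omega), piv w c m 3 (by omega) (by omega) (by omega)]
    tauto
  · rw [piv w c (n := q + 1) m 0 (by omega) (by omega) (by omega),
      piv w c (n := q + 2) m 1 (by omega) (by omega) (by omega)]
    tauto

lemma amb0 {y c y' c' : ℤ → Bool} {k k' : ℤ} (e : ℤ) (h : pi y c k = pi y' c' k') (hk : k' = k + 4 * e)
    (q : ℤ) : y q = y' (q + e) ∧ c q = c' (q + e) := by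
  have key : ∀ l ch l' ch', blk l ch 0 = blk l' ch' 0 → blk l ch 1 = blk l' ch' 1 →
    blk l ch 3 = blk l' ch' 3 → l = l' ∧ ch = ch' := by decide
  have v : ∀ r, 0 ≤ r → r < 4 → blk (y q) (c q) r = blk (y' (q + e)) (c' (q + e)) r := fun r h0 h1 => by
    rw [← piv y c (k := k) (n := 4 * q + r - k) q r (by omega) h0 h1, h, piv _ _ (q + e) r (by omega) h0 h1]
  exact key _ _ _ _ (v 0 (by omega) (by omega)) (v 1 (by omega) (by omega)) (v 3 (by omega) (by omega))

/-- All letters a are substituted in the same way. -/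
def Const (y c : ℤ → Bool) : Prop := ∀ p q, y p = false → y q = false → c p = c q

lemma amb1 {y c y' c' : ℤ → Bool} {k k' : ℤ} (e : ℤ) (h : pi y c k = pi y' c' k') (hk : k' = k - 1 + 4 * e) :
    Const y c ∧ Const y' c' := by
  have key : ∀ l ch l' ch', blk l ch 1 = blk l' ch' 0 → blk l ch 2 = blk l' ch' 1 →
    blk l ch 3 = blk l' ch' 2 → (l = false → ch = true) ∧ (l' = false → ch' = false) := by decide
  have v : ∀ q r, 0 ≤ r → r < 3 → blk (y q) (c q) (r + 1) = blk (y' (q + e)) (c' (q + e)) r :=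
    fun q r h0 h1 => by
      rw [← piv y c (k := k) (n := 4 * q + r + 1 - k) q (r + 1) (by omega) (by omega) (by omega), h,
        piv _ _ (q + e) r (by omega) h0 (by omega)]
  have w := fun q => key _ _ _ _ (v q 0 (by omega) (by omega)) (v q 1 (by omega) (by omega))
    (v q 2 (by omega) (by omega))
  refine ⟨fun p q hp hq => by rw [(w p).1 hp, (w q).1 hq], fun p q hp hq => ?_⟩
  have h1 := (w (p - e)).2
  have h2 := (w (q - e)).2
  rw [sub_add_cancel] at h1 h2
  rw [h1 hp, h2 hq]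

lemma amb2 {y c y' c' : ℤ → Bool} {k k' : ℤ} (hy : y ∈ X) (e : ℤ) (h : pi y c k = pi y' c' k')
    (hk : k' = k + 2 + 4 * e) : False := by
  have key : ∀ l ch l' ch' m dh, blk l ch 2 = blk l' ch' 0 → blk l ch 3 = blk l' ch' 1 →
    blk m dh 0 = blk l' ch' 2 → blk m dh 1 = blk l' ch' 3 → (l = false ∨ ch = true) → m = true ∧ dh = true := by
    decide
  have v : ∀ q r, 0 ≤ r → r < 2 → blk (y q) (c q) (r + 2) = blk (y' (q + e + 1)) (c' (q + e + 1)) r ∧
      blk (y (q + 1)) (c (q + 1)) r = blk (y' (q + e + 1)) (c' (q + e + 1)) (r + 2) := fun q r h0 h1 => by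
    constructor
    · rw [← piv y c (k := k) (n := 4 * q + r + 2 - k) q (r + 2) (by omega) (by omega) (by omega), h,
        piv _ _ (q + e + 1) r (by omega) h0 (by omega)]
    · rw [← piv y c (k := k) (n := 4 * q + r + 4 - k) (q + 1) r (by omega) (by omega) (by omega), h,
        piv _ _ (q + e + 1) (r + 2) (by omega) (by omega) (by omega)]
  have w := fun q => key _ _ _ _ _ _ (v q 0 (by omega) (by omega)).1 (v q 1 (by omega) (by omega)).1
    (v q 0 (by omega) (by omega)).2 (v q 1 (by omega) (by omega)).2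
  obtain ⟨q, hq⟩ : ∃ q, y q = false := by
    rcases nobbb hy 0 with h | h | h <;> exact ⟨_, h⟩
  have h1 := w q (.inl hq)
  have h2 := w _ (.inr h1.2)
  have h3 := w _ (.inr h2.2)
  have h4 := nobbb hy (q + 1)
  rw [show q + 1 + 2 = q + 1 + 1 + 1 by ring, h1.1, h2.1, h3.1] at h4
  simp at h4

lemma aper (p : ℕ) (hp : 0 < p) {x : ℤ → Bool} (hx : x ∈ X) : ∃ n, x (n + p) ≠ x n := by
  induction p using Nat.strong_induction_on generalizing x with
  | _ p ih =>
    by_contra! h
    obtain ⟨y, hy, c, k, rfl⟩ := surj hx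
    have h1 : pi y c (k : ℕ) = pi y c ((k : ℕ) + p) := funext fun n => by
      rw [← h n, pi, pi, add_assoc, add_comm (p : ℤ)]
    have h2 : pi y c (k : ℕ) = pi y c ((k : ℕ) + 2 * p) := funext fun n => by
      rw [← h n, ← h (n + p), pi, pi, show n + p + p + (k : ℕ) = n + ((k : ℕ) + 2 * p) by ring]
    rcases (by omega : p % 4 = 0 ∨ p % 4 = 2 ∨ p % 2 = 1) with h3 | h3 | h3
    · obtain ⟨n, hn⟩ := ih (p / 4) (by omega) (by omega) hy
      exact hn (amb0 (p / 4 : ℕ) h1 (by omega) n).1.symm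
    · exact amb2 hy (p / 4 : ℕ) h1 (by omega)
    · exact amb2 hy (p / 2 : ℕ) h2 (by omega)

end Pool.Agent.H.MP_771d0b_an
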