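import Pool.Agent.H.MP_771d0b_an.A

namespace Pool.Agent.H.MP_771d0b_an

open Set Topology

lemma T_add (s t : ℤ) (x : X) : T s (T t x) = T (s + t) x := by
  simp [T, add_assoc]

lemma krieger (N : ℕ) (hN : 0 < N) : ∃ U : Set X, IsClopen U ∧ (∀ x ∈ U, ∀ i : ℤ, 0 < i → i < N → T i x ∉ U) ∧
    ∀ x, ∃ i : ℤ, -N < i ∧ i < N ∧ T i x ∈ U := by
  classical
  have h1 : ∀ x : X, ∃ V : Set X, IsClopen V ∧ x ∈ V ∧ ∀ z ∈ V, ∀ i : ℤ, 0 < i → i < N → T i z ∉ V := by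
    intro x
    choose! n hn using fun p hp => aper p hp x.2
    refine ⟨⋂ p ∈ Finset.range N, {z | z.1 (n p) = x.1 (n p)} ∩ {z | z.1 (n p + p) = x.1 (n p + p)},
      isClopen_biInter_finset fun p _ => ((isClopen_discrete {x.1 (n p)}).preimage (ev _)).inter
        ((isClopen_discrete {x.1 (n p + p)}).preimage (ev _)), by simp, fun z hz i h0 h1 h2 => ?_⟩
    lift i to ℕ using h0.le
    have h3 := (mem_iInter₂.1 hz i (by simpa using h1)).2
    have h4 := (mem_iInter₂.1 h2 i (by simpa using h1)).1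
    exact hn i (by omega) (h3.symm.trans h4)
  choose V hV xV sV using h1
  obtain ⟨t, -, ht⟩ := isCompact_univ.elim_nhds_subcover V fun x _ => (hV x).isOpen.mem_nhds (xV x)
  suffices ∃ U : Set X, IsClopen U ∧ (∀ x ∈ U, ∀ i : ℤ, 0 < i → i < N → T i x ∉ U) ∧
      ∀ x ∈ ⋃ a ∈ t, V a, ∃ i : ℤ, -N < i ∧ i < N ∧ T i x ∈ U by
    obtain ⟨U, h1, h2, h3⟩ := this
    exact ⟨U, h1, h2, fun x => h3 x (ht trivial)⟩
  clear ht
  induction t using Finset.induction_on with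
  | empty => exact ⟨∅, isClopen_empty, by simp, by simp⟩
  | insert a t _ ih =>
    obtain ⟨U, h1, h2, h3⟩ := ih
    refine ⟨U ∪ (V a \ ⋃ i ∈ Finset.Ioo (-N : ℤ) N, T i ⁻¹' U), h1.union ((hV a).diff
      (isClopen_biUnion_finset fun i _ => h1.preimage (T_cont i))), ?_, fun x hx => ?_⟩
    · rintro x (hx | hx) i h0 h4 (h5 | h5)
      · exact h2 x hx i h0 h4 h5
      · refine h5.2 (mem_iUnion₂.2 ⟨-i, by simp; omega, ?_⟩)
        simpa [T] using hx
      · exact hx.2 (mem_iUnion₂.2 ⟨i, by simp; omega, h5⟩)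
      · exact sV a x hx.1 i h0 h4 h5.1
    · rw [Finset.set_biUnion_insert] at hx
      rcases hx with hx | hx
      · by_cases h4 : x ∈ ⋃ i ∈ Finset.Ioo (-N : ℤ) N, T i ⁻¹' U
        · obtain ⟨i, h5, h6⟩ := mem_iUnion₂.1 h4
          exact ⟨i, (Finset.mem_Ioo.1 h5).1, (Finset.mem_Ioo.1 h5).2, .inl h6⟩
        · exact ⟨0, by omega, by omega, .inr (by simpa [T] using ⟨hx, by simpa [T] using h4⟩)⟩
      · obtain ⟨i, h4, h5, h6⟩ := h3 x hx
        exact ⟨i, h4, h5, .inl h6⟩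

lemma blocks (N : ℕ) (hN : 0 < N) : ∃ m : X → ℤ → ℤ, (∀ j, Continuous fun y => m y j) ∧
    (∀ y j, m (T 1 y) j = m y (j + 1) - 1) ∧ (∀ y j, m y j ≤ j ∧ j < m y j + 2 * N) ∧
    ∀ y j (t : ℕ), t < N → m y (m y j + t) = m y j := by
  classical
  obtain ⟨U, h1, h2, h3⟩ := krieger N hN
  have ex : ∀ x : X, ∃ d : ℕ, d < 2 * N ∧ T (-d) x ∈ U := fun x => by
    obtain ⟨i, h4, h5, h6⟩ := h3 (T (-N) x)
    rw [T_add] at h6
    exact ⟨(N - i).toNat, by omega, by rwa [show -(((N - i).toNat : ℕ) : ℤ) = i + -N by omega]⟩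
  have ex' : ∀ x : X, ∃ d : ℕ, T (-d) x ∈ U := fun x => (ex x).imp fun _ h => h.2
  have hc : Continuous fun x => Nat.find (ex' x) := by
    refine continuous_discrete_rng.2 fun d => ?_
    have : (fun x => Nat.find (ex' x)) ⁻¹' {d} =
        T (-d) ⁻¹' U ∩ ⋂ e ∈ Finset.range d, (T (-(e : ℕ)) ⁻¹' U)ᶜ := by
      ext x
      simp [Nat.find_eq_iff]
    rw [this]
    exact ((h1.preimage (T_cont _)).inter (isClopen_biInter_finset fun e _ =>
      (h1.preimage (T_cont _)).compl)).isOpen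
  refine ⟨fun y j => j - Nat.find (ex' (T j y)), fun j => ?_, fun y j => ?_, fun y j => ⟨by simp, ?_⟩,
    fun y j t ht => ?_⟩
  · exact (continuous_of_discreteTopology (f := fun d : ℕ => j - (d : ℤ))).comp (hc.comp (T_cont j))
  · simp only [T_add]
    ring
  · obtain ⟨d, h4, h5⟩ := ex (T j y)
    have := Nat.find_min' (ex' (T j y)) h5
    simp only
    omega
  · have key : ∀ d : ℕ, T (-d) (T j y) ∈ U → Nat.find (ex' (T (j - d + t) y)) = t := fun d h4 => by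
      rw [T_add] at h4
      rw [Nat.find_eq_iff, T_add, show -(t : ℤ) + (j - d + t) = -d + j by ring]
      refine ⟨h4, fun e he h5 => h2 _ h4 (t - e) (by omega) (by omega) ?_⟩
      rw [T_add] at h5 ⊢
      rwa [show (t : ℤ) - e + (-d + j) = -e + (j - d + t) by ring]
    simp only
    rw [key _ (Nat.find_spec (ex' (T j y)))]
    ring

def P (y : X) (c : ℤ → Bool) (k : ℤ) : X := ⟨pi y c k, up y.2 c k⟩

/-- The automorphism group of the subshift: homeomorphisms commuting with the shift. -/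
def Aut : Subgroup (X ≃ₜ X) := Subgroup.centralizer {shift}

def Lifts (f : X → X) (F : X → (ℤ → Bool) → ℤ → Bool) : Prop :=
  ∀ y c (k : Fin 4), f (P y c (k : ℕ)) = P y (F y c) (k : ℕ)

lemma Psurj (x : X) : ∃ y c, ∃ k : Fin 4, x = P y c (k : ℕ) := by
  obtain ⟨y, hy, c, k, h⟩ := surj x.2
  exact ⟨⟨y, hy⟩, c, k, Subtype.ext h⟩

lemma Lifts.iter {f F} (h : Lifts f F) (n : ℕ) : Lifts f^[n] fun y => (F y)^[n] := fun y c k => by
  induction n with
  | zero => rfl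
  | succ n ih => simp only [Function.iterate_succ_apply', ih, h _ _ k]

lemma Lifts.uniq {f g F} (h : Lifts f F) (h' : Lifts g F) : f = g := funext fun x => by
  obtain ⟨y, c, k, rfl⟩ := Psurj x
  rw [h, h']

lemma P_cont : Continuous fun z : X × (ℤ → Bool) × Fin 4 => P z.1 z.2.1 (z.2.2 : ℕ) :=
  continuous_induced_rng.2 (pi_cont.comp (continuous_subtype_val.prodMap continuous_id))

lemma P_shift (y : X) (c : ℤ → Bool) (k : ℤ) : T 1 (P y c k) = P y c (k + 1) :=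
  Subtype.ext (funext fun n => by simp only [T, P, pi, add_assoc, add_comm 1 k])

lemma P_four (y : X) (c : ℤ → Bool) : P y c 4 = P (T 1 y) (fun n => c (n + 1)) 0 :=
  Subtype.ext (funext fun n => by
    simp only [T, P, pi, add_zero, show (n + 4) / 4 = n / 4 + 1 by omega, show (n + 4) % 4 = n % 4 by omega])

lemma lift (F : X → (ℤ → Bool) → ℤ → Bool) (hc : Continuous fun z : X × (ℤ → Bool) => F z.1 z.2)
    (he : ∀ y c, F (T 1 y) (fun n => c (n + 1)) = fun n => F y c (n + 1))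
    (hf : ∀ (y : X) c, Const y c → F y c = c) (n : ℕ) (hn : ∀ y, (F y)^[n + 1] = id) :
    ∃ f : Aut, Lifts f.1 F := by
  choose y0 c0 k0 h0 using Psurj
  obtain ⟨f, hl⟩ : ∃ f, Lifts f F := by
    refine ⟨fun x => P (y0 x) (F (y0 x) (c0 x)) (k0 x : ℕ), fun y c k => ?_⟩
    have h := h0 (P y c (k : ℕ))
    simp only
    generalize y0 (P y c (k : ℕ)) = y', c0 (P y c (k : ℕ)) = c', k0 (P y c (k : ℕ)) = k' at h ⊢
    have h1 : pi y c (k : ℕ) = pi y' c' (k' : ℕ) := congrArg Subtype.val h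
    have : ((k' : ℕ) : ℤ) = (k : ℕ) + 4 * 0 ∨ (∃ e : ℤ, ((k' : ℕ) : ℤ) = (k : ℕ) - 1 + 4 * e) ∨
        (∃ e : ℤ, ((k : ℕ) : ℤ) = (k' : ℕ) - 1 + 4 * e) ∨ ∃ e : ℤ, ((k' : ℕ) : ℤ) = (k : ℕ) + 2 + 4 * e := by
      rcases (by omega : ((k' : ℕ) : ℤ) = (k : ℕ) + 4 * 0 ∨ ((k' : ℕ) - (k : ℕ) : ℤ) % 4 = 3 ∨
        ((k : ℕ) - (k' : ℕ) : ℤ) % 4 = 3 ∨ ((k' : ℕ) - (k : ℕ) : ℤ) % 4 = 2) with h | h | h | h
      · exact .inl h
      · exact .inr (.inl ⟨((k' : ℕ) - (k : ℕ) + 1) / 4, by omega⟩)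
      · exact .inr (.inr (.inl ⟨((k : ℕ) - (k' : ℕ) + 1) / 4, by omega⟩))
      · exact .inr (.inr (.inr ⟨((k' : ℕ) - (k : ℕ)) / 4, by omega⟩))
    rcases this with h2 | ⟨e, h2⟩ | ⟨e, h2⟩ | ⟨e, h2⟩
    · obtain rfl : y = y' := Subtype.ext (funext fun q => by simpa using (amb0 0 h1 h2 q).1)
      obtain rfl : c = c' := funext fun q => by simpa using (amb0 0 h1 h2 q).2
      rw [show k' = k from Fin.ext (by omega)]
    · rw [hf _ _ (amb1 e h1 h2).1, hf _ _ (amb1 e h1 h2).2, h]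
    · rw [hf _ _ (amb1 e h1.symm h2).1, hf _ _ (amb1 e h1.symm h2).2, h]
    · exact (amb2 y.2 e h1 h2).elim
  have fc : Continuous f := by
    rw [(P_cont.isClosedMap.isQuotientMap P_cont fun x => ⟨(y0 x, c0 x, k0 x), (h0 x).symm⟩).continuous_iff]
    have : (f ∘ fun z : X × (ℤ → Bool) × Fin 4 => P z.1 z.2.1 (z.2.2 : ℕ)) =
      fun z => P z.1 (F z.1 z.2.1) (z.2.2 : ℕ) := funext fun z => hl _ _ _
    rw [this]
    exact P_cont.comp (continuous_fst.prodMk ((hc.comp (continuous_id.prodMap continuous_fst)).prodMk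
      continuous_snd.snd))
  have fi : f^[n + 1] = id := (hl.iter (n + 1)).uniq fun y c k => by simp only [hn, id]
  refine ⟨⟨⟨⟨f, f^[n], fun x => congrFun fi x, fun x => ?_⟩, fc, fc.iterate n⟩, ?_⟩, hl⟩
  · rw [← Function.iterate_succ_apply' f]
    exact congrFun fi x
  · rintro _ rfl
    ext1 x
    obtain ⟨y, c, k, rfl⟩ := Psurj x
    change T 1 (f _) = f (T 1 _)
    rw [hl, P_shift, P_shift]
    by_cases h : (k : ℕ) = 3
    · have := hl (T 1 y) (fun n => c (n + 1)) 0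
      rw [h, show ((3 : ℕ) : ℤ) + 1 = 4 by rfl, P_four, P_four, ← he]
      exact this.symm
    · exact (hl y c ⟨k + 1, by omega⟩).symm

end Pool.Agent.H.MP_771d0b_an
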